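import Mathlib

/-!
# Selecting an element of a finite set from a probability vector and a uniform variable
-/

set_option linter.unusedSectionVars false

namespace Pool.Agent.Helper73.ERW

open MeasureTheory ProbabilityTheory Measure Set unitInterval

section

variable {D : Type*} [Fintype D] [Nonempty D] [MeasurableSpace D] [MeasurableSingletonClass D]

/-- The set of probability vectors. -/
def simplexSet (D : Type*) [Fintype D] : Set (D → ℝ) := {p | (∀ e, 0 ≤ p e) ∧ ∑ e, p e = 1}

lemma measurableSet_simplexSet : MeasurableSet (simplexSet D) := by
  have h : simplexSet D = (⋂ e, {p : D → ℝ | 0 ≤ p e}) ∩ {p | ∑ e, p e = 1} := by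
    ext p
    simp [simplexSet]
  rw [h]
  apply MeasurableSet.inter
  · exact MeasurableSet.iInter (fun e => measurableSet_le measurable_const (measurable_pi_apply e))
  · exact measurableSet_eq_fun (by fun_prop) measurable_const

open Classical in
/-- The measure on `D` with weights `p` (a Dirac mass if `p` is not a probability vector). -/
noncomputable def vecMeasure (p : D → ℝ) : Measure D :=
  if p ∈ simplexSet D then ∑ e, ENNReal.ofReal (p e) • dirac e else dirac (Classical.arbitrary D)

lemma vecMeasure_apply {p : D → ℝ} (hp : p ∈ simplexSet D) (B : Set D) [DecidablePred (· ∈ B)] :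
    vecMeasure p B = ∑ e with e ∈ B, ENNReal.ofReal (p e) := by
  unfold vecMeasure
  rw [if_pos hp]
  rw [Measure.finsetSum_apply, Finset.sum_filter]
  apply Finset.sum_congr rfl
  intro e _
  rw [Measure.smul_apply, dirac_apply' _ (Set.Finite.measurableSet (Set.toFinite B))]
  by_cases h : e ∈ B
  · simp [h]
  · simp [h]

instance (p : D → ℝ) : IsProbabilityMeasure (vecMeasure p) := by
  classical
  by_cases hp : p ∈ simplexSet D
  · constructor
    rw [vecMeasure_apply hp]
    simp only [mem_univ, Finset.filter_true]
    rw [← ENNReal.ofReal_sum_of_nonneg (fun e _ => hp.1 e), hp.2, ENNReal.ofReal_one]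
  · unfold vecMeasure
    rw [if_neg hp]
    infer_instance

/-- The kernel of `vecMeasure`. -/
noncomputable def vecKernel (D : Type*) [Fintype D] [Nonempty D] [MeasurableSpace D]
    [MeasurableSingletonClass D] : Kernel (D → ℝ) D where
  toFun := vecMeasure
  measurable' := by
    apply Measure.measurable_of_measurable_coe
    intro s hs
    classical
    have : (fun p : D → ℝ => vecMeasure p s) = fun p =>
        if p ∈ simplexSet D then ∑ e with e ∈ s, ENNReal.ofReal (p e)
          else dirac (Classical.arbitrary D) s := by
      funext p
      by_cases hp : p ∈ simplexSet D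
      · rw [if_pos hp, vecMeasure_apply hp]
      · rw [if_neg hp]
        unfold vecMeasure
        rw [if_neg hp]
    rw [this]
    exact Measurable.ite measurableSet_simplexSet (by fun_prop) measurable_const

instance : IsMarkovKernel (vecKernel D) := ⟨fun p => by
  show IsProbabilityMeasure (vecMeasure p)
  infer_instance⟩

end

/-- A measurable selection. -/
lemma exists_selection (D : Type*) [Fintype D] [Nonempty D] [MeasurableSpace D]
    [MeasurableSingletonClass D] :
    ∃ f : (D → ℝ) → I → D, Measurable (Function.uncurry f) ∧
      ∀ p ∈ simplexSet D, ∀ (B : Set D) [DecidablePred (· ∈ B)],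
        volume (f p ⁻¹' B) = ∑ e with e ∈ B, ENNReal.ofReal (p e) := by
  obtain ⟨f, hf, hmap⟩ := (vecKernel D).exists_measurable_map_eq_unitInterval
  refine ⟨f, hf, fun p hp B _ => ?_⟩
  have hm : Measurable (f p) := hf.comp measurable_prodMk_left
  rw [← Measure.map_apply hm (Set.Finite.measurableSet (Set.toFinite B)), hmap p]
  exact vecMeasure_apply hp B

end Pool.Agent.Helper73.ERW
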