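import Mathlib

/-!
# Walks driven by stacks of arrows

`wk vec ξ a` is the walk started at `a` that leaves the site `z` at its `(i+1)`-st visit along the
arrow `ξ z i`.  Main deterministic facts:

* `eventually_ne_of_transient`: if the walk from `x` visits every site finitely often then the walk
  from any `a` visits `x` finitely often (same stacks);
* `frequently_add`: if `z` is visited infinitely often and every arrow occurs infinitely often in
  the stack at `z`, then all neighbours of `z` are visited infinitely often.
-/

set_option linter.unusedSectionVars false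

namespace Pool.Agent.Helper73.ERW

open Filter

variable {V D : Type*} [AddCommGroup V] [DecidableEq V] [Fintype D] [DecidableEq D]

/-- Position and local clocks of the walk driven by the stacks `ξ`. -/
def st (vec : D → V) (ξ : V → ℕ → D) (a : V) : ℕ → V × (V → ℕ)
  | 0 => (a, fun _ => 0)
  | n + 1 =>
    ((st vec ξ a n).1 + vec (ξ (st vec ξ a n).1 ((st vec ξ a n).2 (st vec ξ a n).1)),
      Function.update (st vec ξ a n).2 (st vec ξ a n).1 ((st vec ξ a n).2 (st vec ξ a n).1 + 1))

/-- Position at time `n`. -/
def wk (vec : D → V) (ξ : V → ℕ → D) (a : V) (n : ℕ) : V := (st vec ξ a n).1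

/-- Number of visits before time `n`. -/
def ck (vec : D → V) (ξ : V → ℕ → D) (a : V) (n : ℕ) : V → ℕ := (st vec ξ a n).2

variable (vec : D → V) (ξ : V → ℕ → D)

@[simp] lemma wk_zero (a : V) : wk vec ξ a 0 = a := rfl

@[simp] lemma ck_zero (a z : V) : ck vec ξ a 0 z = 0 := rfl

lemma wk_succ (a : V) (n : ℕ) : wk vec ξ a (n + 1) =
    wk vec ξ a n + vec (ξ (wk vec ξ a n) (ck vec ξ a n (wk vec ξ a n))) := rfl

lemma ck_succ (a : V) (n : ℕ) : ck vec ξ a (n + 1) =
    Function.update (ck vec ξ a n) (wk vec ξ a n) (ck vec ξ a n (wk vec ξ a n) + 1) := rfl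

lemma ck_succ_self (a : V) (n : ℕ) :
    ck vec ξ a (n + 1) (wk vec ξ a n) = ck vec ξ a n (wk vec ξ a n) + 1 := by
  rw [ck_succ, Function.update_self]

lemma ck_succ_of_ne (a z : V) (n : ℕ) (h : wk vec ξ a n ≠ z) :
    ck vec ξ a (n + 1) z = ck vec ξ a n z := by
  rw [ck_succ, Function.update_of_ne (Ne.symm h)]

lemma ck_mono (a z : V) : Monotone (fun n => ck vec ξ a n z) := by
  apply monotone_nat_of_le_succ
  intro n
  by_cases h : wk vec ξ a n = z
  · subst h
    rw [ck_succ_self]
    exact Nat.le_succ _
  · rw [ck_succ_of_ne _ _ _ _ _ h]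

lemma ck_eq_card (a z : V) (n : ℕ) : ck vec ξ a n z =
    ((Finset.range n).filter (fun m => wk vec ξ a m = z)).card := by
  induction n with
  | zero => simp
  | succ n ih =>
    rw [Finset.range_add_one, Finset.filter_insert]
    by_cases h : wk vec ξ a n = z
    · rw [if_pos h, Finset.card_insert_of_notMem (by simp), ← ih]
      subst h
      exact ck_succ_self _ _ _ _
    · rw [if_neg h, ← ih]
      exact ck_succ_of_ne _ _ _ _ _ h

/-- Number of arrows among the first `c y` arrows of every `y` that point to `z`. -/
def inflow (c : V → ℕ) (z : V) : ℕ :=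
  ∑ e : D, ((Finset.range (c (z - vec e))).filter (fun i => ξ (z - vec e) i = e)).card

lemma inflow_mono {c c' : V → ℕ} (h : ∀ y, c y ≤ c' y) (z : V) :
    inflow vec ξ c z ≤ inflow vec ξ c' z := by
  apply Finset.sum_le_sum
  intro e _
  apply Finset.card_le_card
  apply Finset.filter_subset_filter
  exact Finset.range_mono (h _)

lemma inflow_update (c : V → ℕ) (y z : V) :
    inflow vec ξ (Function.update c y (c y + 1)) z =
      inflow vec ξ c z + if z = y + vec (ξ y (c y)) then 1 else 0 := by
  unfold inflow
  have h1 : ∀ e : D,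
      ((Finset.range (Function.update c y (c y + 1) (z - vec e))).filter
        (fun i => ξ (z - vec e) i = e)).card =
      ((Finset.range (c (z - vec e))).filter (fun i => ξ (z - vec e) i = e)).card +
        if e = ξ y (c y) then (if z = y + vec (ξ y (c y)) then 1 else 0) else 0 := by
    intro e
    by_cases hy : z - vec e = y
    · rw [hy, Function.update_self, Finset.range_add_one, Finset.filter_insert]
      by_cases he : ξ y (c y) = e
      · rw [if_pos he, Finset.card_insert_of_notMem (by simp), if_pos he.symm, if_pos]
        rw [he, ← hy]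
        abel
      · rw [if_neg he, if_neg (fun h => he h.symm), add_zero]
    · rw [Function.update_of_ne hy]
      by_cases he : e = ξ y (c y)
      · rw [if_pos he, if_neg, add_zero]
        intro h
        apply hy
        rw [he, h]
        abel
      · rw [if_neg he, add_zero]
  rw [Finset.sum_congr rfl (fun e _ => h1 e), Finset.sum_add_distrib, Finset.sum_ite_eq']
  simp

/-- Conservation of flow along the walk. -/
lemma flow (a : V) (n : ℕ) (z : V) :
    ck vec ξ a n z + (if z = wk vec ξ a n then 1 else 0) =
      inflow vec ξ (ck vec ξ a n) z + if z = a then 1 else 0 := by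
  induction n with
  | zero =>
    have : inflow vec ξ (ck vec ξ a 0) z = 0 := by
      unfold inflow
      simp
    rw [this, ck_zero]
    rfl
  | succ n ih =>
    rw [ck_succ, inflow_update, ← wk_succ]
    by_cases h : z = wk vec ξ a n
    · subst h
      rw [Function.update_self]
      rw [if_pos rfl] at ih
      omega
    · rw [Function.update_of_ne h]
      rw [if_neg h] at ih
      omega

/-- If `w` is the clock field of a completed transient walk from `x` (unit flow from `x`), every
walk finds an unused `w`-arrow whenever it is at `x`. -/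
lemma lt_of_flow {w : V → ℕ} {x : V}
    (hw : ∀ z, inflow vec ξ w z + (if z = x then 1 else 0) = w z) (a : V) (n : ℕ) :
    (∃ b, ∀ z, min (ck vec ξ a n z) (w z) + (if z = wk vec ξ a n then 1 else 0) =
      inflow vec ξ (fun y => min (ck vec ξ a n y) (w y)) z + if z = b then 1 else 0) ∧
    (wk vec ξ a n = x → ck vec ξ a n x < w x) := by
  -- the second claim follows from the first
  have key : ∀ n, (∃ b, ∀ z, min (ck vec ξ a n z) (w z) + (if z = wk vec ξ a n then 1 else 0) =
      inflow vec ξ (fun y => min (ck vec ξ a n y) (w y)) z + if z = b then 1 else 0) →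
      w (wk vec ξ a n) ≤ ck vec ξ a n (wk vec ξ a n) →
      wk vec ξ a n ≠ x ∧ ∀ z, min (ck vec ξ a n z) (w z) =
        inflow vec ξ (fun y => min (ck vec ξ a n y) (w y)) z := by
    rintro n ⟨b, hb⟩ hle
    have h1 := hb (wk vec ξ a n)
    rw [if_pos rfl, min_eq_right hle] at h1
    have h2 := hw (wk vec ξ a n)
    have h3 : inflow vec ξ (fun y => min (ck vec ξ a n y) (w y)) (wk vec ξ a n) ≤
        inflow vec ξ w (wk vec ξ a n) := inflow_mono vec ξ (fun y => min_le_right _ _) _
    have h4 : wk vec ξ a n = b := by
      by_contra h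
      rw [if_neg h] at h1
      omega
    have h5 : wk vec ξ a n ≠ x := by
      intro h
      rw [if_pos h] at h2
      rw [if_pos h4] at h1
      omega
    refine ⟨h5, fun z => ?_⟩
    have h6 := hb z
    rw [h4] at h6
    omega
  have first : ∀ n, ∃ b, ∀ z,
      min (ck vec ξ a n z) (w z) + (if z = wk vec ξ a n then 1 else 0) =
      inflow vec ξ (fun y => min (ck vec ξ a n y) (w y)) z + if z = b then 1 else 0 := by
    intro n
    induction n with
    | zero =>
      refine ⟨a, fun z => ?_⟩
      have : inflow vec ξ (fun y => min (ck vec ξ a 0 y) (w y)) z = 0 := by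
        unfold inflow
        simp
      rw [this, ck_zero, Nat.zero_min]
      rfl
    | succ n ih =>
      by_cases hlt : ck vec ξ a n (wk vec ξ a n) < w (wk vec ξ a n)
      · obtain ⟨b, hb⟩ := ih
        refine ⟨b, fun z => ?_⟩
        have e1 : (fun y => min (ck vec ξ a (n + 1) y) (w y)) =
            Function.update (fun y => min (ck vec ξ a n y) (w y)) (wk vec ξ a n)
              ((fun y => min (ck vec ξ a n y) (w y)) (wk vec ξ a n) + 1) := by
          funext y
          by_cases hy : y = wk vec ξ a n
          · subst hy
            rw [Function.update_self]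
            rw [ck_succ_self]
            show _ = min (ck vec ξ a n (wk vec ξ a n)) (w (wk vec ξ a n)) + 1
            omega
          · rw [Function.update_of_ne hy]
            rw [ck_succ_of_ne _ _ _ _ _ (fun h => hy h.symm)]
        have e2 : min (ck vec ξ a n (wk vec ξ a n)) (w (wk vec ξ a n)) =
            ck vec ξ a n (wk vec ξ a n) := by
          omega
        have e3 : min (ck vec ξ a (n + 1) z) (w z) =
            (fun y => min (ck vec ξ a (n + 1) y) (w y)) z := rfl
        rw [e3, e1, inflow_update]
        simp only [e2]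
        rw [← wk_succ]
        have h1 := hb z
        by_cases hz : z = wk vec ξ a n
        · subst hz
          rw [Function.update_self]
          rw [if_pos rfl] at h1
          omega
        · rw [Function.update_of_ne hz]
          rw [if_neg hz] at h1
          omega
      · push Not at hlt
        obtain ⟨h5, h6⟩ := key n ih hlt
        refine ⟨wk vec ξ a (n + 1), fun z => ?_⟩
        have e1 : (fun y => min (ck vec ξ a (n + 1) y) (w y)) =
            (fun y => min (ck vec ξ a n y) (w y)) := by
          funext y
          by_cases hy : y = wk vec ξ a n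
          · subst hy
            rw [ck_succ_self]
            omega
          · rw [ck_succ_of_ne _ _ _ _ _ (fun h => hy h.symm)]
        have e3 : min (ck vec ξ a (n + 1) z) (w z) =
            (fun y => min (ck vec ξ a (n + 1) y) (w y)) z := rfl
        rw [e3, e1]
        simp only
        rw [h6 z]
  refine ⟨first n, fun hx => ?_⟩
  by_contra hcon
  push Not at hcon
  exact (key n (first n) (by rw [hx]; exact hcon)).1 hx

/-- A site visited at time `n` whose clock stays bounded is visited finitely often. -/
lemma eventually_ne_of_bdd {a x : V} {B : ℕ} (h : ∀ n, ck vec ξ a n x ≤ B) :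
    ∀ᶠ n in atTop, wk vec ξ a n ≠ x := by
  -- the clock is eventually constant
  have hmono := ck_mono vec ξ a x
  have hev : ∃ N, ∀ n ≥ N, ck vec ξ a n x = ck vec ξ a N x := by
    by_contra hcon
    push Not at hcon
    -- then it is unbounded
    have : ∀ k, ∃ n, k ≤ ck vec ξ a n x := by
      intro k
      induction k with
      | zero => exact ⟨0, Nat.zero_le _⟩
      | succ k ih =>
        obtain ⟨n, hn⟩ := ih
        obtain ⟨m, hm, hne⟩ := hcon n
        have h1 : ck vec ξ a n x ≤ ck vec ξ a m x := hmono hm
        exact ⟨m, by omega⟩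
    obtain ⟨n, hn⟩ := this (B + 1)
    have := h n
    omega
  obtain ⟨N, hN⟩ := hev
  rw [eventually_atTop]
  refine ⟨N, fun n hn heq => ?_⟩
  have h1 := hN n hn
  have h2 := hN (n + 1) (by omega)
  have h3 := ck_succ_self vec ξ a n
  rw [heq] at h3
  omega

/-- The clock field of a transient walk. -/
lemma exists_clock {x : V} (h : ∀ z, ∀ᶠ n in atTop, wk vec ξ x n ≠ z) :
    ∃ w : V → ℕ, ∀ z, inflow vec ξ w z + (if z = x then 1 else 0) = w z := by
  have h1 : ∀ z, ∃ N, ∀ n ≥ N, wk vec ξ x n ≠ z := by
    intro z
    exact eventually_atTop.mp (h z)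
  choose N hN using h1
  have hc : ∀ z n, N z ≤ n → ck vec ξ x n z = ck vec ξ x (N z) z := by
    intro z n hn
    induction n, hn using Nat.le_induction with
    | base => rfl
    | succ n hn ih => rw [ck_succ_of_ne _ _ _ _ _ (hN z n hn), ih]
  refine ⟨fun z => ck vec ξ x (N z) z, fun z => ?_⟩
  set M := N z + ∑ e : D, N (z - vec e) with hM
  have hMz : N z ≤ M := Nat.le_add_right _ _
  have hMe : ∀ e : D, N (z - vec e) ≤ M := fun e =>
    (Finset.single_le_sum (f := fun e : D => N (z - vec e)) (fun _ _ => Nat.zero_le _)
      (Finset.mem_univ e)).trans (Nat.le_add_left _ _)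
  have h2 := flow vec ξ x M z
  rw [if_neg (fun hz => hN z M hMz hz.symm), add_zero, hc z M hMz] at h2
  have h3 : inflow vec ξ (ck vec ξ x M) z = inflow vec ξ (fun z => ck vec ξ x (N z) z) z := by
    unfold inflow
    apply Finset.sum_congr rfl
    intro e _
    rw [hc _ M (hMe e)]
  rw [← h3]
  exact h2.symm

/-- **Key lemma.** If the walk from `x` visits every site finitely often, then, in the same stacks,
the walk from any `a` visits `x` finitely often. -/
theorem eventually_ne_of_transient {x : V} (h : ∀ z, ∀ᶠ n in atTop, wk vec ξ x n ≠ z) (a : V) :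
    ∀ᶠ n in atTop, wk vec ξ a n ≠ x := by
  obtain ⟨w, hw⟩ := exists_clock vec ξ h
  apply eventually_ne_of_bdd vec ξ (B := w x)
  intro n
  induction n with
  | zero => simp
  | succ n ih =>
    by_cases hx : wk vec ξ a n = x
    · have h1 := (lt_of_flow vec ξ hw a n).2 hx
      have h2 := ck_succ_self vec ξ a n
      rw [hx] at h2
      omega
    · rw [ck_succ_of_ne _ _ _ _ _ hx]
      exact ih

/-- If `z` is visited infinitely often and the arrow `e` occurs infinitely often in its stack then
`z + vec e` is visited infinitely often. -/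
theorem frequently_add {a z : V} (h : ∃ᶠ n in atTop, wk vec ξ a n = z) (e : D)
    (he : ∃ᶠ i in atTop, ξ z i = e) : ∃ᶠ n in atTop, wk vec ξ a n = z + vec e := by
  rw [frequently_atTop] at h he ⊢
  intro N
  obtain ⟨i, hi, hie⟩ := he (ck vec ξ a N z)
  -- the clock at `z` is unbounded
  have hub : ∀ k, ∃ n, k ≤ ck vec ξ a n z := by
    intro k
    induction k with
    | zero => exact ⟨0, Nat.zero_le _⟩
    | succ k ih =>
      obtain ⟨n, hn⟩ := ih
      obtain ⟨m, hm, hmz⟩ := h n
      refine ⟨m + 1, ?_⟩
      have h1 : ck vec ξ a n z ≤ ck vec ξ a m z := ck_mono vec ξ a z hm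
      have h2 := ck_succ_self vec ξ a m
      rw [hmz] at h2
      omega
  have hex : ∃ n, i < ck vec ξ a n z := by
    obtain ⟨n, hn⟩ := hub (i + 1)
    exact ⟨n, hn⟩
  classical
  set m := Nat.find hex with hm
  have hm1 : i < ck vec ξ a m z := Nat.find_spec hex
  have hNm : N < m := by
    by_contra hcon
    push Not at hcon
    have : ck vec ξ a m z ≤ ck vec ξ a N z := ck_mono vec ξ a z hcon
    omega
  obtain ⟨k, hkm⟩ := Nat.exists_eq_succ_of_ne_zero (by omega : m ≠ 0)
  rw [Nat.succ_eq_add_one] at hkm
  have hk : ck vec ξ a k z ≤ i := by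
    have := Nat.find_min hex (m := k) (by omega)
    omega
  rw [hkm] at hm1
  have hkz : wk vec ξ a k = z := by
    by_contra hne
    rw [ck_succ_of_ne _ _ _ _ _ hne] at hm1
    omega
  have h2 := ck_succ_self vec ξ a k
  rw [hkz] at h2
  have h3 : ck vec ξ a k z = i := by omega
  refine ⟨k + 1, by omega, ?_⟩
  rw [wk_succ, hkz, h3, hie]

end Pool.Agent.Helper73.ERW
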