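import Mathlib
import Pool.Agent.Helper73.ERW.Stack
import Pool.Agent.Helper73.ERW.Select

/-!
# The random field of stacks of arrows

Given an i.i.d. random environment `ω` on `(Ω, μ)` we build, on `Ω × (V → ℕ → I)`, stacks of arrows
which are conditionally independent given the environment, with conditional laws prescribed by it.
-/

set_option linter.unusedSectionVars false

namespace Pool.Agent.Helper73.ERW

open MeasureTheory ProbabilityTheory Measure Set unitInterval Filter

variable {V D Ω : Type*}

/-- Arrows at one site, from the environment at this site and uniform variables. -/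
def arr (f : (D → ℝ) → I → D) (s : D → ℕ → ℝ) (u : ℕ → I) : ℕ → D :=
  fun i => f (fun e => s e i) (u i)

/-- Stacks of arrows. -/
def stk (f : (D → ℝ) → I → D) (s : V → D → ℕ → ℝ) (U : V → ℕ → I) : V → ℕ → D :=
  fun z => arr f (s z) (U z)

variable [MeasurableSpace D]

lemma measurable_arr {f : (D → ℝ) → I → D} (hf : Measurable (Function.uncurry f)) :
    Measurable (fun q : (D → ℕ → ℝ) × (ℕ → I) => arr f q.1 q.2) := by
  apply measurable_pi_lambda
  intro i
  exact hf.comp (Measurable.prodMk (by fun_prop) (by fun_prop))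

lemma measurable_stk {f : (D → ℝ) → I → D} (hf : Measurable (Function.uncurry f)) :
    Measurable (fun q : (V → D → ℕ → ℝ) × (V → ℕ → I) => stk f q.1 q.2) := by
  apply measurable_pi_lambda
  intro z
  exact (measurable_arr hf).comp (Measurable.prodMk (by fun_prop) (by fun_prop))

/-- Uniform variables at one site. -/
noncomputable def lam : Measure (ℕ → I) := infinitePi (fun _ : ℕ => (volume : Measure I))

instance : IsProbabilityMeasure lam := by unfold lam; infer_instance

/-- Uniform variables. -/
noncomputable def Lam (V : Type*) : Measure (V → ℕ → I) := infinitePi (fun _ : V => lam)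

instance : IsProbabilityMeasure (Lam V) := by unfold Lam; infer_instance

variable [MeasurableSpace Ω] {μ : Measure Ω} [IsProbabilityMeasure μ]

/-- The law of the arrows at a site. -/
noncomputable def siteLaw (μ : Measure Ω) (f : (D → ℝ) → I → D) (s : Ω → D → ℕ → ℝ) :
    Measure (ℕ → D) :=
  (μ.prod lam).map (fun q => arr f (s q.1) q.2)

lemma isProb_siteLaw {f : (D → ℝ) → I → D} (hf : Measurable (Function.uncurry f))
    {s : Ω → D → ℕ → ℝ} (hs : Measurable s) : IsProbabilityMeasure (siteLaw μ f s) := by
  unfold siteLaw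
  apply isProbabilityMeasure_map
  apply Measurable.aemeasurable
  exact (measurable_arr hf).comp ((hs.comp measurable_fst).prodMk measurable_snd)

/-- The stacks at different sites are i.i.d. under the averaged law. -/
theorem map_stk [Countable V] [Zero V] {f : (D → ℝ) → I → D} (hf : Measurable (Function.uncurry f))
    {ω : Ω → V → D → ℕ → ℝ} (hω : Measurable ω)
    (hind : iIndepFun (fun (z : V) (a : Ω) => ω a z) μ)
    (hid : ∀ z : V, IdentDistrib (fun a => ω a z) (fun a => ω a 0) μ μ)
    [IsProbabilityMeasure (siteLaw μ f (fun a => ω a 0))] :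
    (μ.prod (Lam V)).map (fun q => stk f (ω q.1) q.2) =
      infinitePi (fun _ : V => siteLaw μ f (fun a => ω a 0)) := by
  apply eq_infinitePi
  intro s t ht
  have hωz : ∀ z : V, Measurable (fun a => ω a z) := fun z => (measurable_pi_apply z).comp hω
  have hmeas : Measurable (fun q : Ω × (V → ℕ → I) => stk f (ω q.1) q.2) :=
    (measurable_stk hf).comp ((hω.comp measurable_fst).prodMk measurable_snd)
  rw [Measure.map_apply hmeas (MeasurableSet.pi s.countable_toSet (fun z _ => ht z)),
    Measure.prod_apply (hmeas (MeasurableSet.pi s.countable_toSet (fun z _ => ht z)))]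
  -- the section measures
  set G : V → (D → ℕ → ℝ) → ENNReal := fun z r => lam ((fun u => arr f r u) ⁻¹' t z) with hG
  have hGm : ∀ z, Measurable (G z) := by
    intro z
    exact measurable_measure_prodMk_left (ν := lam) ((measurable_arr hf) (ht z))
  have h1 : ∀ a, (Lam V) (Prod.mk a ⁻¹' ((fun q : Ω × (V → ℕ → I) => stk f (ω q.1) q.2) ⁻¹'
      (s : Set V).pi t)) = ∏ z ∈ s, G z (ω a z) := by
    intro a
    have h2 : (Prod.mk a ⁻¹' ((fun q : Ω × (V → ℕ → I) => stk f (ω q.1) q.2) ⁻¹'
        (s : Set V).pi t)) = (s : Set V).pi (fun z => (fun u => arr f (ω a z) u) ⁻¹' t z) := by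
      ext U
      simp only [mem_preimage, Set.mem_pi, stk]
    rw [h2]
    unfold Lam
    rw [infinitePi_pi]
    intro z _
    exact ((measurable_arr hf).comp (measurable_const.prodMk measurable_id)) (ht z)
  simp_rw [h1]
  have h3 : iIndepFun (fun (z : V) (a : Ω) => G z (ω a z)) μ := hind.comp G hGm
  rw [lintegral_prod_eq_prod_lintegral_of_indepFun s (fun z a => G z (ω a z)) h3
    (fun z => (hGm z).comp (hωz z))]
  apply Finset.prod_congr rfl
  intro z _
  have h4 : ∫⁻ a, G z (ω a z) ∂μ = ∫⁻ a, G z (ω a 0) ∂μ := by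
    exact ((hid z).comp (hGm z)).lintegral_eq
  rw [h4]
  unfold siteLaw
  have hm0 : Measurable (fun q : Ω × (ℕ → I) => arr f (ω q.1 0) q.2) :=
    (measurable_arr hf).comp (((hωz 0).comp measurable_fst).prodMk measurable_snd)
  rw [Measure.map_apply hm0 (ht z), Measure.prod_apply (hm0 (ht z))]
  rfl

/-- Probability that finitely many uniform variables with distinct indices lie in prescribed
sets. -/
lemma Lam_iInter {n : ℕ} (c : ℕ → V × ℕ) (hc : ∀ m < n, ∀ k < n, c m = c k → m = k)
    (B : ℕ → Set I) (hB : ∀ m, MeasurableSet (B m)) :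
    (Lam V) {U | ∀ m < n, U (c m).1 (c m).2 ∈ B m} = ∏ m ∈ Finset.range n, volume (B m) := by
  classical
  set J : Finset (V × ℕ) := (Finset.range n).image c with hJ
  set t : V × ℕ → Set I := fun j => ⋂ m ∈ Finset.range n, {u | c m = j → u ∈ B m} with ht
  have htm : ∀ j, MeasurableSet (t j) := by
    intro j
    apply Finset.measurableSet_biInter
    intro m _
    by_cases h : c m = j
    · simpa [h] using hB m
    · simp [h]
  have h1 : {U : V → ℕ → I | ∀ m < n, U (c m).1 (c m).2 ∈ B m} =
      (MeasurableEquiv.curry V ℕ I).symm ⁻¹' ((J : Set (V × ℕ)).pi t) := by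
    ext U
    simp only [Set.mem_ofPred_eq, mem_preimage, Set.mem_pi, hJ, Finset.coe_image, Set.mem_image,
      Finset.coe_range, mem_Iio, ht, mem_iInter, Finset.mem_range]
    constructor
    · rintro h j ⟨k, hk, rfl⟩ m hm hmk
      have := h m hm
      rw [hmk] at this
      exact this
    · intro h m hm
      exact h (c m) ⟨m, hm, rfl⟩ m hm rfl
  rw [h1, ← Measure.map_apply (MeasurableEquiv.measurable _)
    (MeasurableSet.pi J.countable_toSet (fun j _ => htm j))]
  unfold Lam lam
  rw [infinitePi_map_curry_symm (fun (_ : V) (_ : ℕ) => (volume : Measure I)),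
    infinitePi_pi _ (fun j _ => htm j), hJ, Finset.prod_image]
  · apply Finset.prod_congr rfl
    intro m hm
    congr 1
    ext u
    simp only [ht, mem_iInter, Set.mem_ofPred_eq, Finset.mem_range]
    constructor
    · intro h
      exact h m (Finset.mem_range.mp hm) rfl
    · intro h k hk hkm
      have := hc k hk m (Finset.mem_range.mp hm) hkm
      rw [this]
      exact h
  · intro m hm k hk h
    exact hc m (Finset.mem_range.mp hm) k (Finset.mem_range.mp hk) h

/-- Under uniform ellipticity every arrow occurs infinitely often in every stack. -/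
theorem ae_frequently [Fintype D] [MeasurableSingletonClass D] {f : (D → ℝ) → I → D}
    (hf : Measurable (Function.uncurry f))
    (hsel : ∀ p ∈ simplexSet D, ∀ (B : Set D) [DecidablePred (· ∈ B)],
      volume (f p ⁻¹' B) = ∑ e with e ∈ B, ENNReal.ofReal (p e))
    {s : V → D → ℕ → ℝ} {κ : ℝ} (hκ : 0 < κ) (hs1 : ∀ z e k, κ ≤ s z e k)
    (hs2 : ∀ z k, ∑ e, s z e k = 1) (z : V) (e : D) :
    ∀ᵐ U ∂(Lam V), ∃ᶠ i in atTop, stk f s U z i = e := by
  classical
  have hmem : ∀ i, (fun e => s z e i) ∈ simplexSet D :=
    fun i => ⟨fun e => hκ.le.trans (hs1 z e i), hs2 z i⟩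
  have hone : ∀ i, volume ((f (fun e => s z e i)) ⁻¹' {e}ᶜ) ≤ ENNReal.ofReal (1 - κ) := by
    intro i
    rw [hsel _ (hmem i)]
    have h1 : ∑ e' with e' ∈ ({e}ᶜ : Set D), ENNReal.ofReal (s z e' i) =
        ENNReal.ofReal (∑ e' with e' ∈ ({e}ᶜ : Set D), s z e' i) := by
      rw [ENNReal.ofReal_sum_of_nonneg]
      intro e' _
      exact hκ.le.trans (hs1 z e' i)
    rw [h1]
    apply ENNReal.ofReal_le_ofReal
    have h2 := hs2 z i
    have h3 : ∑ e' : D, s z e' i = s z e i + ∑ e' with e' ∈ ({e}ᶜ : Set D), s z e' i := by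
      rw [← Finset.add_sum_erase Finset.univ _ (Finset.mem_univ e)]
      congr 1
      apply Finset.sum_congr _ (fun _ _ => rfl)
      ext e'
      simp
    have h4 := hs1 z e i
    linarith
  have hne : ∀ N, ∀ᵐ U ∂(Lam V), ∃ i ≥ N, stk f s U z i = e := by
    intro N
    rw [ae_iff]
    have hsub : ∀ n, (Lam V) {U | ¬ ∃ i ≥ N, stk f s U z i = e} ≤ ENNReal.ofReal (1 - κ) ^ n := by
      intro n
      calc (Lam V) {U | ¬ ∃ i ≥ N, stk f s U z i = e}
          ≤ (Lam V) {U | ∀ m < n, U ((fun m => (z, N + m)) m).1 ((fun m => (z, N + m)) m).2 ∈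
              (f (fun e => s z e (N + m))) ⁻¹' {e}ᶜ} := by
            apply measure_mono
            intro U hU m _ hcon
            exact hU ⟨N + m, by omega, hcon⟩
        _ = ∏ m ∈ Finset.range n, volume ((f (fun e => s z e (N + m))) ⁻¹' {e}ᶜ) := by
            apply Lam_iInter (fun m => (z, N + m))
            · intro m _ k _ h
              simp only [Prod.mk.injEq, true_and] at h
              omega
            · intro m
              exact (hf.comp (measurable_const.prodMk measurable_id))
                (MeasurableSet.singleton e).compl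
        _ ≤ ∏ m ∈ Finset.range n, ENNReal.ofReal (1 - κ) :=
            Finset.prod_le_prod' (fun m _ => hone (N + m))
        _ = ENNReal.ofReal (1 - κ) ^ n := by simp
    have hlim : Tendsto (fun n : ℕ => ENNReal.ofReal (1 - κ) ^ n) atTop (nhds 0) := by
      apply ENNReal.tendsto_pow_atTop_nhds_zero_of_lt_one
      rw [ENNReal.ofReal_lt_one]
      linarith
    exact le_antisymm (ge_of_tendsto' hlim hsub) zero_le
  filter_upwards [ae_all_iff.mpr hne] with U hU
  rw [frequently_atTop]
  exact hU

end Pool.Agent.Helper73.ERW
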