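import Mathlib
import Pool.Agent.Helper73.ERW.Field

/-!
# Laws of paths
-/

set_option linter.unusedSectionVars false

namespace Pool.Agent.Helper73.ERW

open MeasureTheory ProbabilityTheory Measure Set unitInterval Filter

variable {V D Ω : Type*} [AddCommGroup V] [DecidableEq V] [Fintype D] [DecidableEq D]

/-- Number of earlier visits to the current site of a deterministic path. -/
def cnt (p : ℕ → V) (n : ℕ) : ℕ := ((Finset.range n).filter (fun k => p k = p n)).card

lemma path_iff (vec : D → V) (ξ : V → ℕ → D) (a : V) (p : ℕ → V) (n : ℕ) :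
    (∀ m ≤ n, wk vec ξ a m = p m) ↔
      (p 0 = a ∧ ∀ m < n, p (m + 1) = p m + vec (ξ (p m) (cnt p m))) := by
  induction n with
  | zero =>
    constructor
    · intro h
      exact ⟨(h 0 le_rfl).symm, fun m hm => absurd hm (Nat.not_lt_zero m)⟩
    · rintro ⟨h, -⟩ m hm
      rw [Nat.le_zero.mp hm, h]
      rfl
  | succ n ih =>
    have hstep : (∀ m ≤ n, wk vec ξ a m = p m) →
        wk vec ξ a (n + 1) = p n + vec (ξ (p n) (cnt p n)) := by
      intro h
      rw [wk_succ, h n le_rfl, ck_eq_card]
      congr 3
      unfold cnt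
      congr 1
      apply Finset.filter_congr
      intro m hm
      rw [h m (Finset.mem_range.mp hm).le]
    constructor
    · intro h
      have h1 : ∀ m ≤ n, wk vec ξ a m = p m := fun m hm => h m (by omega)
      obtain ⟨h2, h3⟩ := ih.mp h1
      refine ⟨h2, fun m hm => ?_⟩
      rcases Nat.lt_succ_iff_lt_or_eq.mp hm with h4 | h4
      · exact h3 m h4
      · subst h4
        rw [← h (m + 1) le_rfl]
        exact hstep h1
    · rintro ⟨h2, h3⟩
      have h1 := ih.mpr ⟨h2, fun m hm => h3 m (by omega)⟩
      intro m hm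
      rcases Nat.le_succ_iff.mp hm with h4 | h4
      · exact h1 m h4
      · rw [h4, Nat.succ_eq_add_one, h3 n (by omega)]
        exact hstep h1

lemma cnt_inj (p : ℕ → V) {m k : ℕ} (h : (p m, cnt p m) = (p k, cnt p k)) : m = k := by
  have key : ∀ m k, m < k → (p m, cnt p m) ≠ (p k, cnt p k) := by
    intro m k hmk h
    rw [Prod.mk.injEq] at h
    obtain ⟨h1, h2⟩ := h
    have h3 : insert m ((Finset.range m).filter (fun j => p j = p m)) ⊆
        (Finset.range k).filter (fun j => p j = p k) := by
      intro j hj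
      rw [Finset.mem_insert, Finset.mem_filter, Finset.mem_range] at hj
      rw [Finset.mem_filter, Finset.mem_range]
      rcases hj with rfl | ⟨hj1, hj2⟩
      · exact ⟨hmk, h1⟩
      · exact ⟨by omega, hj2.trans h1⟩
    have h4 := Finset.card_le_card h3
    rw [Finset.card_insert_of_notMem (by simp)] at h4
    unfold cnt at h2
    omega
  rcases lt_trichotomy m k with hlt | heq | hgt
  · exact absurd h (key m k hlt)
  · exact heq
  · exact absurd h.symm (key k m hgt)

/-- Quenched probability of the step from `p m` to `p (m+1)`. -/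
noncomputable def stepProb (vec : D → V) (s : V → D → ℕ → ℝ) (p : ℕ → V) (m : ℕ) : ENNReal :=
  ∑ e with p (m + 1) = p m + vec e, ENNReal.ofReal (s (p m) e (cnt p m))

lemma measurable_stepProb (vec : D → V) (p : ℕ → V) (m : ℕ) :
    Measurable (fun s : V → D → ℕ → ℝ => stepProb vec s p m) := by
  unfold stepProb
  fun_prop

variable [MeasurableSpace D] [MeasurableSingletonClass D]

/-- Quenched law of the stack walk. -/
lemma Lam_path (vec : D → V) {f : (D → ℝ) → I → D} (hf : Measurable (Function.uncurry f))
    (hsel : ∀ p ∈ simplexSet D, ∀ (B : Set D) [DecidablePred (· ∈ B)],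
      volume (f p ⁻¹' B) = ∑ e with e ∈ B, ENNReal.ofReal (p e))
    {s : V → D → ℕ → ℝ} (hs : ∀ z k, (fun e => s z e k) ∈ simplexSet D) (p : ℕ → V) (n : ℕ) :
    (Lam V) {U | ∀ m ≤ n, wk vec (stk f s U) (p 0) m = p m} =
      ∏ m ∈ Finset.range n, stepProb vec s p m := by
  classical
  have h1 : {U : V → ℕ → I | ∀ m ≤ n, wk vec (stk f s U) (p 0) m = p m} =
      {U | ∀ m < n, U ((fun m => (p m, cnt p m)) m).1 ((fun m => (p m, cnt p m)) m).2 ∈
        (f (fun e => s (p m) e (cnt p m))) ⁻¹' {e | p (m + 1) = p m + vec e}} := by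
    ext U
    rw [Set.mem_ofPred_eq, path_iff]
    simp only [true_and]
    rfl
  rw [h1, Lam_iInter (fun m => (p m, cnt p m))]
  · apply Finset.prod_congr rfl
    intro m _
    rw [hsel _ (hs _ _)]
    rfl
  · intro m _ k _ h
    exact cnt_inj p h
  · intro m
    exact (hf.comp (measurable_const.prodMk measurable_id)) (Set.Finite.measurableSet (Set.toFinite _))

variable [MeasurableSpace Ω] {μ : Measure Ω} [IsProbabilityMeasure μ]
variable [MeasurableSpace V] [MeasurableSingletonClass V]

/-- Averaged law of the paths of a walk with the prescribed transition probabilities. -/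
theorem path_law (vec : D → V) (hvec : Function.Injective vec)
    {ω : Ω → V → D → ℕ → ℝ} {X : ℕ → Ω → V} (hω : Measurable ω) (hX : ∀ n, Measurable (X n))
    (hgood : ∀ᵐ a ∂μ, ∀ z k, (fun e => ω a z e k) ∈ simplexSet D)
    (p : ℕ → V) (h0 : ∀ᵐ a ∂μ, X 0 a = p 0)
    (hstep : ∀ (n : ℕ) (e : D) (A : Set (V → D → ℕ → ℝ)), MeasurableSet A →
      μ.real {a | ω a ∈ A ∧ (∀ m ≤ n, X m a = p m) ∧ X (n + 1) a = p n + vec e} =
      ∫ a in {a | ω a ∈ A ∧ ∀ m ≤ n, X m a = p m}, ω a (p n) e (cnt p n) ∂μ) (n : ℕ) :
    ∀ A : Set (V → D → ℕ → ℝ), MeasurableSet A →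
      μ {a | ω a ∈ A ∧ ∀ m ≤ n, X m a = p m} =
        ∫⁻ a in ω ⁻¹' A, ∏ m ∈ Finset.range n, stepProb vec (ω a) p m ∂μ := by
  classical
  have hPm : ∀ n, MeasurableSet {a | ∀ m ≤ n, X m a = p m} := by
    intro n
    have : {a | ∀ m ≤ n, X m a = p m} = ⋂ m ∈ Finset.range (n + 1), (X m) ⁻¹' {p m} := by
      ext a
      simp only [Set.mem_ofPred_eq, mem_iInter, Finset.mem_range, Nat.lt_succ_iff, mem_preimage,
        mem_singleton_iff]
    rw [this]
    exact Finset.measurableSet_biInter _ (fun m _ => hX m (MeasurableSet.singleton _))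
  have hAPm : ∀ n (A : Set (V → D → ℕ → ℝ)), MeasurableSet A →
      MeasurableSet {a | ω a ∈ A ∧ ∀ m ≤ n, X m a = p m} :=
    fun n A hA => (hω hA).inter (hPm n)
  have hev : ∀ z e k, Measurable (fun a => ω a z e k) := fun z e k =>
    (measurable_pi_apply k).comp ((measurable_pi_apply e).comp ((measurable_pi_apply z).comp hω))
  -- one step, ENNReal version
  have hone : ∀ (n : ℕ) (e : D) (A : Set (V → D → ℕ → ℝ)), MeasurableSet A →
      μ {a | ω a ∈ A ∧ (∀ m ≤ n, X m a = p m) ∧ X (n + 1) a = p n + vec e} =
      ∫⁻ a in {a | ω a ∈ A ∧ ∀ m ≤ n, X m a = p m}, ENNReal.ofReal (ω a (p n) e (cnt p n)) ∂μ := by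
    intro n e A hA
    have h1 := hstep n e A hA
    have h2 : ∀ᵐ a ∂(μ.restrict {a | ω a ∈ A ∧ ∀ m ≤ n, X m a = p m}),
        0 ≤ ω a (p n) e (cnt p n) := by
      apply ae_restrict_of_ae
      filter_upwards [hgood] with a ha
      exact (ha (p n) (cnt p n)).1 e
    have h3 : Integrable (fun a => ω a (p n) e (cnt p n))
        (μ.restrict {a | ω a ∈ A ∧ ∀ m ≤ n, X m a = p m}) := by
      apply Integrable.of_bound (hev _ _ _).aestronglyMeasurable 1
      apply ae_restrict_of_ae
      filter_upwards [hgood] with a ha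
      have h4 := ha (p n) (cnt p n)
      rw [Real.norm_eq_abs, abs_of_nonneg (h4.1 e), ← h4.2]
      exact Finset.single_le_sum (f := fun e => ω a (p n) e (cnt p n)) (fun e _ => h4.1 e)
        (Finset.mem_univ e)
    rw [← ofReal_integral_eq_lintegral_ofReal h3 h2, ← h1, ofReal_measureReal]
  -- one step, to a prescribed site
  have hsite : ∀ (n : ℕ) (A : Set (V → D → ℕ → ℝ)), MeasurableSet A →
      μ {a | ω a ∈ A ∧ ∀ m ≤ n + 1, X m a = p m} =
      ∫⁻ a in {a | ω a ∈ A ∧ ∀ m ≤ n, X m a = p m}, stepProb vec (ω a) p n ∂μ := by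
    intro n A hA
    have hset : {a | ω a ∈ A ∧ ∀ m ≤ n + 1, X m a = p m} =
        {a | ω a ∈ A ∧ (∀ m ≤ n, X m a = p m) ∧ X (n + 1) a = p (n + 1)} := by
      ext a
      simp only [Set.mem_ofPred_eq]
      constructor
      · rintro ⟨h1, h2⟩
        exact ⟨h1, fun m hm => h2 m (by omega), h2 (n + 1) le_rfl⟩
      · rintro ⟨h1, h2, h3⟩
        refine ⟨h1, fun m hm => ?_⟩
        rcases Nat.le_succ_iff.mp hm with h4 | h4
        · exact h2 m h4
        · rw [h4]
          exact h3
    rw [hset]
    by_cases hex : ∃ e, p (n + 1) = p n + vec e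
    · obtain ⟨e, he⟩ := hex
      rw [he, hone n e A hA]
      apply lintegral_congr
      intro a
      unfold stepProb
      have hfil : (Finset.univ.filter (fun e' => p (n + 1) = p n + vec e')) = {e} := by
        ext e'
        simp only [Finset.mem_filter, Finset.mem_univ, true_and, Finset.mem_singleton]
        rw [he]
        constructor
        · intro h
          exact (hvec (add_left_cancel h)).symm
        · rintro rfl
          rfl
      rw [hfil, Finset.sum_singleton]
    · have hzero : ∀ a, stepProb vec (ω a) p n = 0 := by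
        intro a
        unfold stepProb
        rw [Finset.filter_false_of_mem (fun e _ h => hex ⟨e, h⟩), Finset.sum_empty]
      simp only [hzero, lintegral_zero]
      -- total mass
      set P := {a | ω a ∈ A ∧ ∀ m ≤ n, X m a = p m} with hP
      set E : D → Set Ω := fun e =>
        {a | ω a ∈ A ∧ (∀ m ≤ n, X m a = p m) ∧ X (n + 1) a = p n + vec e} with hE
      set F := {a | ω a ∈ A ∧ (∀ m ≤ n, X m a = p m) ∧ X (n + 1) a = p (n + 1)} with hF
      have hEm : ∀ e, MeasurableSet (E e) := by
        intro e
        have : E e = P ∩ (X (n + 1)) ⁻¹' {p n + vec e} := by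
          ext a
          simp only [hE, hP, Set.mem_ofPred_eq, mem_inter_iff, mem_preimage, mem_singleton_iff]
          tauto
        rw [this]
        exact (hAPm n A hA).inter (hX _ (MeasurableSet.singleton _))
      have hFm : MeasurableSet F := by
        have : F = P ∩ (X (n + 1)) ⁻¹' {p (n + 1)} := by
          ext a
          simp only [hF, hP, Set.mem_ofPred_eq, mem_inter_iff, mem_preimage, mem_singleton_iff]
          tauto
        rw [this]
        exact (hAPm n A hA).inter (hX _ (MeasurableSet.singleton _))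
      have hsum : ∑ e, μ (E e) = μ P := by
        have h1 : ∀ e, μ (E e) = ∫⁻ a in P, ENNReal.ofReal (ω a (p n) e (cnt p n)) ∂μ :=
          fun e => hone n e A hA
        simp_rw [h1]
        rw [← lintegral_finsetSum _ (fun e _ => (hev _ _ _).ennreal_ofReal)]
        have h2 : ∫⁻ a in P, ∑ e, ENNReal.ofReal (ω a (p n) e (cnt p n)) ∂μ =
            ∫⁻ a in P, 1 ∂μ := by
          apply lintegral_congr_ae
          apply ae_restrict_of_ae
          filter_upwards [hgood] with a ha
          have h4 := ha (p n) (cnt p n)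
          rw [← ENNReal.ofReal_sum_of_nonneg (fun e _ => h4.1 e), h4.2, ENNReal.ofReal_one]
        rw [h2]
        simp
      have hunion : μ (⋃ e, E e) = ∑ e, μ (E e) := by
        rw [measure_iUnion _ hEm, tsum_fintype]
        intro e e' hee
        rw [Function.onFun, Set.disjoint_left]
        rintro a ⟨_, _, h1⟩ ⟨_, _, h2⟩
        rw [h1] at h2
        exact hee (hvec (add_left_cancel h2))
      have hdisj : Disjoint (⋃ e, E e) F := by
        rw [Set.disjoint_left]
        intro a ha hb
        rw [mem_iUnion] at ha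
        obtain ⟨e, _, _, h1⟩ := ha
        obtain ⟨_, _, h2⟩ := hb
        exact hex ⟨e, by rw [← h2, h1]⟩
      have hle : μ (⋃ e, E e) + μ F ≤ μ P := by
        rw [← measure_union hdisj hFm]
        apply measure_mono
        apply union_subset
        · apply iUnion_subset
          rintro e a ⟨h1, h2, _⟩
          exact ⟨h1, h2⟩
        · rintro a ⟨h1, h2, _⟩
          exact ⟨h1, h2⟩
      rw [hunion, hsum] at hle
      have hfin : μ P ≠ ⊤ := measure_ne_top _ _
      by_contra hne
      have hpos : 0 < μ F := pos_iff_ne_zero.mpr hne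
      have := ENNReal.lt_add_right hfin hpos.ne'
      exact absurd hle (not_le.mpr this)
  induction n with
  | zero =>
    intro A hA
    simp only [Finset.range_zero, Finset.prod_empty]
    rw [lintegral_one, Measure.restrict_apply_univ]
    apply measure_congr
    filter_upwards [h0] with a ha
    apply propext
    constructor
    · rintro ⟨h1, _⟩
      exact h1
    · intro h1
      refine ⟨h1, fun m hm => ?_⟩
      rw [Nat.le_zero.mp hm]
      exact ha
  | succ n ih =>
    intro A hA
    rw [hsite n A hA]
    set Fn : (V → D → ℕ → ℝ) → ENNReal := fun s => ∏ m ∈ Finset.range n, stepProb vec s p m with hFn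
    have hFnm : Measurable Fn := Finset.measurable_prod _ (fun m _ => measurable_stepProb vec p m)
    set P := {a | ∀ m ≤ n, X m a = p m} with hP
    have hM : (μ.restrict P).map ω = (μ.map ω).withDensity Fn := by
      ext B hB
      rw [Measure.map_apply hω hB, Measure.restrict_apply (hω hB), withDensity_apply _ hB,
        setLIntegral_map hB hFnm hω]
      exact ih B hB
    have h1 : ∫⁻ a in {a | ω a ∈ A ∧ ∀ m ≤ n, X m a = p m}, stepProb vec (ω a) p n ∂μ =
        ∫⁻ s in A, stepProb vec s p n ∂((μ.restrict P).map ω) := by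
      rw [setLIntegral_map hA (measurable_stepProb vec p n) hω, Measure.restrict_restrict (hω hA)]
      rfl
    rw [h1, hM, setLIntegral_withDensity_eq_setLIntegral_mul _ hFnm (measurable_stepProb vec p n) hA,
      setLIntegral_map hA (hFnm.mul (measurable_stepProb vec p n)) hω]
    apply lintegral_congr
    intro a
    rw [Finset.prod_range_succ]
    rfl

end Pool.Agent.Helper73.ERW
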