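import Mathlib

/-!
# Zero-one law for almost invariant events of an i.i.d. field
-/

namespace Pool.Agent.Helper73.ERW

open MeasureTheory ProbabilityTheory Measure Set
open scoped symmDiff

lemma abs_measureReal_sub_le {X : Type*} [MeasurableSpace X] (μ : Measure X)
    [IsFiniteMeasure μ] (A B : Set X) :
    |μ.real A - μ.real B| ≤ μ.real (A ∆ B) := by
  have h : ∀ A B : Set X, μ.real A ≤ μ.real B + μ.real (A ∆ B) := by
    intro A B
    have h1 : A ⊆ B ∪ A ∆ B := by
      intro x hx
      by_cases hB : x ∈ B
      · exact Or.inl hB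
      · exact Or.inr (Or.inl ⟨hx, hB⟩)
    exact (measureReal_mono h1).trans (measureReal_union_le _ _)
  rw [abs_le]
  have h1 := h A B
  have h2 := h B A
  rw [symmDiff_comm] at h2
  constructor <;> linarith

/-- Shift of a configuration. -/
def shift {V W : Type*} [Add V] (x : V) (ξ : V → W) : V → W := fun z => ξ (z + x)

lemma measurable_shift {V W : Type*} [Add V] [MeasurableSpace W] (x : V) :
    Measurable (shift (W := W) x) := by
  unfold shift
  fun_prop

lemma map_shift {V W : Type*} [AddCommGroup V] [MeasurableSpace W] (ν : Measure W)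
    [IsProbabilityMeasure ν] (x : V) :
    (infinitePi (fun _ : V => ν)).map (shift x) = infinitePi (fun _ : V => ν) := by
  exact map_infinitePi_infinitePi_of_inj (P := fun _ : V => ν) (f := fun z : V => z + x)
    (add_left_injective x)

/-- An event that is almost invariant under all shifts of an i.i.d. field has probability `0` or
`1`. -/
theorem zero_one {V W : Type*} [AddCommGroup V] [MeasurableSpace W] (ν : Measure W)
    [IsProbabilityMeasure ν]
    (hV : ∀ I : Finset V, ∃ x : V, ∀ i ∈ I, ∀ j ∈ I, i ≠ j + x)
    {R : Set (V → W)} (hR : MeasurableSet R)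
    (hinv : ∀ x, infinitePi (fun _ : V => ν) (R ∆ (shift x ⁻¹' R)) = 0) :
    (infinitePi (fun _ : V => ν)).real R = 0 ∨ (infinitePi (fun _ : V => ν)).real R = 1 := by
  classical
  set Q := infinitePi (fun _ : V => ν) with hQ
  have hind : iIndepFun (fun (z : V) (ξ : V → W) => ξ z) Q :=
    iIndepFun_infinitePi (P := fun _ : V => ν) (X := fun _ w => w) (fun _ => measurable_id)
  have key : ∀ ε : ℝ, 0 < ε → |Q.real R - Q.real R * Q.real R| ≤ 4 * ε := by
    intro ε hε
    have halg : IsSetAlgebra (measurableCylinders (fun _ : V => W)) :=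
      { empty_mem := empty_mem_measurableCylinders _
        compl_mem := fun _ hs => compl_mem_measurableCylinders hs
        union_mem := fun _ _ hs ht => union_mem_measurableCylinders hs ht }
    have hdense := MeasureDense.of_generateFrom_isSetAlgebra_finite Q halg
      (generateFrom_measurableCylinders (α := fun _ : V => W)).symm
    obtain ⟨C, hC, hCε⟩ := hdense.approx R hR (measure_ne_top _ _) ε hε
    have hC1 : Q.real (R ∆ C) ≤ ε := by
      rw [measureReal_def]
      exact ENNReal.toReal_le_of_le_ofReal hε.le hCε.le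
    have hCm : MeasurableSet C := .of_mem_measurableCylinders hC
    obtain ⟨I, S, hS, rfl⟩ := (mem_measurableCylinders C).mp hC
    obtain ⟨x, hx⟩ := hV I
    set C : Set (V → W) := cylinder (α := fun _ : V => W) I S with hCdef
    -- independence
    have hind2 : Q.real (C ∩ shift x ⁻¹' C) = Q.real C * Q.real (shift x ⁻¹' C) := by
      have hd : Disjoint I (I.image (fun j => j + x)) := by
        rw [Finset.disjoint_left]
        intro i hi hi2
        rw [Finset.mem_image] at hi2
        obtain ⟨j, hj, hji⟩ := hi2
        exact hx i hi j hj hji.symm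
      have h1 := hind.indepFun_finset I (I.image (fun j => j + x)) hd
        (fun z => measurable_pi_apply z)
      have h2 := h1.measure_inter_preimage_eq_mul S
        ((fun (g : (I.image (fun j => j + x) : Finset V) → W) (i : I) =>
          g ⟨i.1 + x, Finset.mem_image_of_mem _ i.2⟩) ⁻¹' S) hS
        ((by fun_prop : Measurable (fun (g : (I.image (fun j => j + x) : Finset V) → W) (i : I) =>
          g ⟨i.1 + x, Finset.mem_image_of_mem _ i.2⟩)) hS)
      rw [measureReal_def, measureReal_def, measureReal_def, ← ENNReal.toReal_mul]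
      exact congrArg ENNReal.toReal h2
    have hshift : Q.real (shift x ⁻¹' C) = Q.real C := by
      have := map_shift ν x
      rw [← hQ] at this
      conv_rhs => rw [← this]
      rw [measureReal_def, measureReal_def, map_apply (measurable_shift x) hCm]
    have hshift2 : Q.real ((shift x ⁻¹' R) ∆ (shift x ⁻¹' C)) = Q.real (R ∆ C) := by
      have := map_shift ν x
      rw [← hQ] at this
      conv_rhs => rw [← this]
      rw [measureReal_def, measureReal_def, map_apply (measurable_shift x) (hR.symmDiff hCm)]
      rfl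
    have h3 : Q.real (R ∩ shift x ⁻¹' R) = Q.real R := by
      have h4 : |Q.real R - Q.real (R ∩ shift x ⁻¹' R)| ≤ 0 := by
        refine (abs_measureReal_sub_le Q _ _).trans ?_
        have h5 : R ∆ (R ∩ shift x ⁻¹' R) ⊆ R ∆ (shift x ⁻¹' R) := by
          intro y hy
          rcases hy with ⟨h1, h2⟩ | ⟨h1, h2⟩
          · exact Or.inl ⟨h1, fun h => h2 ⟨h1, h⟩⟩
          · exact absurd h1.1 h2
        refine (measureReal_mono h5).trans ?_
        rw [measureReal_def, hinv x]
        simp
      have h5 := abs_nonpos_iff.mp h4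
      linarith
    have h6 : |Q.real (R ∩ shift x ⁻¹' R) - Q.real (C ∩ shift x ⁻¹' C)| ≤ 2 * ε := by
      refine (abs_measureReal_sub_le Q _ _).trans ?_
      have h5 : (R ∩ shift x ⁻¹' R) ∆ (C ∩ shift x ⁻¹' C) ⊆
          (R ∆ C) ∪ ((shift x ⁻¹' R) ∆ (shift x ⁻¹' C)) := by
        intro y hy
        rcases hy with ⟨⟨h1, h2⟩, h3⟩ | ⟨⟨h1, h2⟩, h3⟩
        · by_cases hc : y ∈ C
          · exact Or.inr (Or.inl ⟨h2, fun h => h3 ⟨hc, h⟩⟩)
          · exact Or.inl (Or.inl ⟨h1, hc⟩)
        · by_cases hc : y ∈ R
          · exact Or.inr (Or.inr ⟨h2, fun h => h3 ⟨hc, h⟩⟩)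
          · exact Or.inl (Or.inr ⟨h1, hc⟩)
      refine (measureReal_mono h5).trans ((measureReal_union_le _ _).trans ?_)
      rw [hshift2]
      linarith
    rw [hind2, hshift, h3] at h6
    have h7 : |Q.real R - Q.real C| ≤ ε := (abs_measureReal_sub_le Q _ _).trans hC1
    have hR1 : Q.real R ≤ 1 := measureReal_le_one
    have hC2 : Q.real C ≤ 1 := measureReal_le_one
    have hR0 : 0 ≤ Q.real R := measureReal_nonneg
    have hC0 : 0 ≤ Q.real C := measureReal_nonneg
    rw [abs_le] at h6 h7 ⊢
    constructor <;> nlinarith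
  have h0 : Q.real R - Q.real R * Q.real R = 0 := by
    by_contra hne
    have hpos := abs_pos.mpr hne
    have := key (|Q.real R - Q.real R * Q.real R| / 8) (by positivity)
    linarith
  have h1 : Q.real R * (1 - Q.real R) = 0 := by linarith
  rcases mul_eq_zero.mp h1 with h | h
  · exact Or.inl h
  · exact Or.inr (by linarith)

end Pool.Agent.Helper73.ERW
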