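import Mathlib
import Pool.Agent.Helper73.ERW.PathLaw
import Pool.Agent.Helper73.ERW.ZeroOne

/-!
# Zero-one law for recurrence of excited random walks
-/

set_option linter.unusedSectionVars false

namespace Pool.Agent.Helper73.ERW

open MeasureTheory ProbabilityTheory Measure Set unitInterval Filter
open scoped symmDiff

section paths

variable {V : Type*} [Countable V] [MeasurableSpace V] [MeasurableSingletonClass V]

lemma measurableSet_freq (z : V) : MeasurableSet {x : ℕ → V | ∃ᶠ n in atTop, x n = z} := by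
  have : {x : ℕ → V | ∃ᶠ n in atTop, x n = z} =
      ⋂ N : ℕ, ⋃ n : ℕ, {x : ℕ → V | N ≤ n ∧ x n = z} := by
    ext x
    simp only [Set.mem_ofPred_eq, frequently_atTop, mem_iInter, mem_iUnion]
  rw [this]
  apply MeasurableSet.iInter
  intro N
  apply MeasurableSet.iUnion
  intro n
  have h1 : MeasurableSet {x : ℕ → V | x n = z} :=
    (measurable_pi_apply n : Measurable (fun x : ℕ → V => x n)) (MeasurableSet.singleton z)
  by_cases h : N ≤ n
  · simpa only [h, true_and] using h1
  · simp [h]

lemma measurableSet_rec : MeasurableSet {x : ℕ → V | ∀ z, ∃ᶠ n in atTop, x n = z} := by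
  have : {x : ℕ → V | ∀ z, ∃ᶠ n in atTop, x n = z} =
      ⋂ z : V, {x : ℕ → V | ∃ᶠ n in atTop, x n = z} := by
    ext x
    simp only [Set.mem_ofPred_eq, mem_iInter]
  rw [this]
  exact MeasurableSet.iInter (fun z => measurableSet_freq z)

lemma measurableSet_trans : MeasurableSet {x : ℕ → V | ∀ z, ∀ᶠ n in atTop, x n ≠ z} := by
  have : {x : ℕ → V | ∀ z, ∀ᶠ n in atTop, x n ≠ z} =
      ⋂ z : V, {x : ℕ → V | ∃ᶠ n in atTop, x n = z}ᶜ := by
    ext x
    simp only [Set.mem_ofPred_eq, mem_iInter, mem_compl_iff, not_frequently, ne_eq]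
  rw [this]
  exact MeasurableSet.iInter (fun z => (measurableSet_freq z).compl)

/-- Measures on path space are determined by the probabilities of initial segments. -/
lemma path_ext {μ ν : Measure (ℕ → V)} [IsFiniteMeasure μ]
    (h : ∀ (n : ℕ) (p : ℕ → V), μ {x | ∀ m ≤ n, x m = p m} = ν {x | ∀ m ≤ n, x m = p m}) :
    μ = ν := by
  have hn : ∀ n : ℕ, μ.map (Finset.restrict (π := fun _ => V) (Finset.range (n + 1))) =
      ν.map (Finset.restrict (Finset.range (n + 1))) := by
    intro n
    apply Measure.ext_of_singleton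
    intro g
    rw [Measure.map_apply (by fun_prop) (MeasurableSet.singleton _),
      Measure.map_apply (by fun_prop) (MeasurableSet.singleton _)]
    by_cases hne : Nonempty V
    · obtain ⟨v⟩ := hne
      have hset : (Finset.restrict (π := fun _ => V) (Finset.range (n + 1))) ⁻¹' {g} =
          {x | ∀ m ≤ n, x m = (fun m => if hm : m ∈ Finset.range (n + 1) then g ⟨m, hm⟩ else v) m} := by
        ext x
        simp only [mem_preimage, mem_singleton_iff, Set.mem_ofPred_eq]
        constructor
        · rintro rfl m hm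
          rw [dif_pos (by rw [Finset.mem_range]; omega)]
          rfl
        · intro h
          funext m
          have hm := m.2
          rw [Finset.mem_range] at hm
          have := h m.1 (by omega)
          rw [dif_pos m.2] at this
          exact this
      rw [hset]
      exact h n _
    · exact absurd ⟨g ⟨0, by simp⟩⟩ hne
  refine IsProjectiveLimit.unique (P := fun J : Finset ℕ => μ.map (Finset.restrict J))
    (fun J => rfl) ?_
  · intro J
    -- `J ⊆ range (n+1)`
    obtain ⟨n, hJ⟩ : ∃ n, J ⊆ Finset.range (n + 1) := by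
      refine ⟨J.sup id, fun j hj => ?_⟩
      rw [Finset.mem_range, Nat.lt_succ_iff]
      exact Finset.le_sup (f := id) hj
    have h1 : (Finset.restrict (π := fun _ => V) J) =
        (Finset.restrict₂ (π := fun _ => V) hJ) ∘ (Finset.restrict (Finset.range (n + 1))) := rfl
    show ν.map (Finset.restrict J) = μ.map (Finset.restrict J)
    rw [h1, ← Measure.map_map (by fun_prop) (by fun_prop), ← hn n,
      Measure.map_map (by fun_prop) (by fun_prop)]

end paths

section walk

variable {V D : Type*} [AddCommGroup V] [DecidableEq V] [Countable V] [MeasurableSpace V]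
  [MeasurableSingletonClass V] [Fintype D] [DecidableEq D] [MeasurableSpace D]
  [MeasurableSingletonClass D]

lemma measurable_eval_countable {A B C : Type*} [MeasurableSpace A] [MeasurableSpace B]
    [MeasurableSpace C] [Countable B] [MeasurableSingletonClass B] {h : B → A → C}
    (hh : ∀ b, Measurable (h b)) {g : A → B} (hg : Measurable g) :
    Measurable (fun a => h (g a) a) := by
  have h1 : Measurable (fun q : A × B => h q.2 q.1) :=
    measurable_from_prod_countable_left (fun b => hh b)
  exact h1.comp (measurable_id.prodMk hg)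

lemma measurable_wk_ck (vec : D → V) (a : V) (n : ℕ) :
    Measurable (fun ξ : V → ℕ → D => wk vec ξ a n) ∧
      ∀ z, Measurable (fun ξ : V → ℕ → D => ck vec ξ a n z) := by
  induction n with
  | zero => exact ⟨measurable_const, fun z => measurable_const⟩
  | succ n ih =>
    obtain ⟨h1, h2⟩ := ih
    have h3 : Measurable (fun ξ : V → ℕ → D => ck vec ξ a n (wk vec ξ a n)) :=
      measurable_eval_countable (h := fun z ξ => ck vec ξ a n z) h2 h1
    have h4 : Measurable (fun ξ : V → ℕ → D => ξ (wk vec ξ a n) (ck vec ξ a n (wk vec ξ a n))) :=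
      measurable_eval_countable (h := fun (b : V × ℕ) (ξ : V → ℕ → D) => ξ b.1 b.2)
        (g := fun ξ => (wk vec ξ a n, ck vec ξ a n (wk vec ξ a n)))
        (fun b => by fun_prop) (h1.prodMk h3)
    constructor
    · have h5 : Measurable (fun ξ : V → ℕ → D => (wk vec ξ a n,
          ξ (wk vec ξ a n) (ck vec ξ a n (wk vec ξ a n)))) := h1.prodMk h4
      exact (measurable_of_countable (fun q : V × D => q.1 + vec q.2)).comp h5
    · intro z
      have h6 : (fun ξ : V → ℕ → D => ck vec ξ a (n + 1) z) = fun ξ =>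
          if wk vec ξ a n = z then ck vec ξ a n z + 1 else ck vec ξ a n z := by
        funext ξ
        by_cases h : wk vec ξ a n = z
        · rw [if_pos h]
          subst h
          exact ck_succ_self _ _ _ _
        · rw [if_neg h]
          exact ck_succ_of_ne _ _ _ _ _ h
      rw [h6]
      exact Measurable.ite (h1 (MeasurableSet.singleton z))
        ((measurable_of_countable (fun k : ℕ => k + 1)).comp (h2 z)) (h2 z)

lemma measurable_wk (vec : D → V) (a : V) :
    Measurable (fun (ξ : V → ℕ → D) (n : ℕ) => wk vec ξ a n) :=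
  measurable_pi_lambda _ (fun n => (measurable_wk_ck vec a n).1)

lemma wk_shift (vec : D → V) (ξ : V → ℕ → D) (x : V) (n : ℕ) :
    wk vec (shift x ξ) 0 n + x = wk vec ξ x n ∧
      ∀ z, ck vec (shift x ξ) 0 n z = ck vec ξ x n (z + x) := by
  induction n with
  | zero => exact ⟨zero_add x, fun z => rfl⟩
  | succ n ih =>
    obtain ⟨h1, h2⟩ := ih
    constructor
    · have h3 : ∀ k, shift x ξ (wk vec (shift x ξ) 0 n) k = ξ (wk vec ξ x n) k := by
        intro k
        show ξ (_ + x) k = _
        rw [h1]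
      rw [wk_succ, wk_succ, h2, h1, h3, add_right_comm, h1]
    · intro z
      by_cases h : wk vec (shift x ξ) 0 n = z
      · subst h
        rw [ck_succ_self, h1, ck_succ_self, h2, h1]
      · rw [ck_succ_of_ne _ _ _ _ _ h, ck_succ_of_ne, h2]
        intro h'
        apply h
        rw [← h1] at h'
        exact add_right_cancel h'

/-- If every arrow occurs infinitely often in every stack, a walk is recurrent or transient. -/
lemma rec_or_trans (vec : D → V) (hgen : AddSubmonoid.closure (Set.range vec) = ⊤)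
    {ξ : V → ℕ → D} (hξ : ∀ z e, ∃ᶠ i in atTop, ξ z i = e) (a : V) :
    (∀ z, ∃ᶠ n in atTop, wk vec ξ a n = z) ∨ (∀ z, ∀ᶠ n in atTop, wk vec ξ a n ≠ z) := by
  by_cases h : ∃ z, ∃ᶠ n in atTop, wk vec ξ a n = z
  · left
    obtain ⟨z, hz⟩ := h
    intro y
    have hy : y - z ∈ AddSubmonoid.closure (Set.range vec) := by
      rw [hgen]
      trivial
    have key : ∀ v ∈ AddSubmonoid.closure (Set.range vec), ∀ z,
        (∃ᶠ n in atTop, wk vec ξ a n = z) → ∃ᶠ n in atTop, wk vec ξ a n = z + v := by
      intro v hv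
      induction hv using AddSubmonoid.closure_induction with
      | mem v hv =>
        obtain ⟨e, rfl⟩ := hv
        intro z hz
        exact frequently_add vec ξ hz e (hξ z e)
      | zero =>
        intro z hz
        rwa [add_zero]
      | add v w _ _ ihv ihw =>
        intro z hz
        rw [← add_assoc]
        exact ihw _ (ihv z hz)
    have := key _ hy z hz
    rwa [add_sub_cancel] at this
  · right
    push Not at h
    exact h

/-- Recurrence does not depend on the starting point. -/
lemma rec_iff (vec : D → V) (hgen : AddSubmonoid.closure (Set.range vec) = ⊤)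
    {ξ : V → ℕ → D} (hξ : ∀ z e, ∃ᶠ i in atTop, ξ z i = e) (a x : V)
    (ha : ∀ z, ∃ᶠ n in atTop, wk vec ξ a n = z) : ∀ z, ∃ᶠ n in atTop, wk vec ξ x n = z := by
  rcases rec_or_trans vec hgen hξ x with h | h
  · exact h
  · have := eventually_ne_of_transient vec ξ h a
    exact absurd (ha x) (by rwa [not_frequently])

end walk

/-- **Zero-one law for recurrence of excited random walks**, for arbitrary finite step sets. -/
theorem erw_zero_one {V D Ω : Type*} [AddCommGroup V] [DecidableEq V] [Countable V] [Infinite V]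
    [MeasurableSpace V] [MeasurableSingletonClass V] [Fintype D] [DecidableEq D] [Nonempty D]
    [MeasurableSpace D] [MeasurableSingletonClass D]
    (vec : D → V) (hvec : Function.Injective vec)
    (hgen : AddSubmonoid.closure (Set.range vec) = ⊤)
    [MeasurableSpace Ω] {μ : Measure Ω} [IsProbabilityMeasure μ]
    {ω : Ω → V → D → ℕ → ℝ} {X : ℕ → Ω → V} (hω : Measurable ω) (hX : ∀ n, Measurable (X n))
    (hind : iIndepFun (fun (z : V) (a : Ω) => ω a z) μ)
    (hid : ∀ z : V, IdentDistrib (fun a => ω a z) (fun a => ω a 0) μ μ)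
    {κ : ℝ} (hκ : 0 < κ) (hell : ∀ᵐ a ∂μ, ∀ z e k, κ ≤ ω a z e k)
    (hsum : ∀ᵐ a ∂μ, ∀ z k, ∑ e, ω a z e k = 1)
    (h0 : ∀ᵐ a ∂μ, X 0 a = 0)
    (hstep : ∀ (n : ℕ) (p : ℕ → V) (e : D) (A : Set (V → D → ℕ → ℝ)), MeasurableSet A →
      μ.real {a | ω a ∈ A ∧ (∀ m ≤ n, X m a = p m) ∧ X (n + 1) a = p n + vec e} =
      ∫ a in {a | ω a ∈ A ∧ ∀ m ≤ n, X m a = p m}, ω a (p n) e (cnt p n) ∂μ) :
    (∀ᵐ a ∂μ, ∀ z, ∃ᶠ n in atTop, X n a = z) ∨
    (∀ᵐ a ∂μ, ∀ z, ∀ᶠ n in atTop, X n a ≠ z) := by
  classical
  obtain ⟨f, hf, hsel⟩ := exists_selection D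
  have hgood : ∀ᵐ a ∂μ, ∀ z k, (fun e => ω a z e k) ∈ simplexSet D := by
    filter_upwards [hell, hsum] with a h1 h2 z k
    exact ⟨fun e => hκ.le.trans (h1 z e k), h2 z k⟩
  have hω0 : Measurable (fun a => ω a (0 : V)) := (measurable_pi_apply 0).comp hω
  have := isProb_siteLaw (μ := μ) hf hω0
  set Q : Measure (V → ℕ → D) := infinitePi (fun _ : V => siteLaw μ f (fun a => ω a 0)) with hQ
  have hstk := map_stk hf hω hind hid
  have hstkm : Measurable (fun q : Ω × (V → ℕ → I) => stk f (ω q.1) q.2) :=
    (measurable_stk hf).comp ((hω.comp measurable_fst).prodMk measurable_snd)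
  have hXm : Measurable (fun a n => X n a) := measurable_pi_lambda _ hX
  -- equality of the laws of the paths
  have hlaw : μ.map (fun a n => X n a) = Q.map (fun ξ n => wk vec ξ 0 n) := by
    rw [hQ, ← hstk, Measure.map_map (measurable_wk vec 0) hstkm]
    have : IsProbabilityMeasure (μ.map (fun a n => X n a)) :=
      isProbabilityMeasure_map hXm.aemeasurable
    apply path_ext
    intro n p
    have hcyl : MeasurableSet {x : ℕ → V | ∀ m ≤ n, x m = p m} := by
      have : {x : ℕ → V | ∀ m ≤ n, x m = p m} =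
          ⋂ m ∈ Finset.range (n + 1), (fun x : ℕ → V => x m) ⁻¹' {p m} := by
        ext x
        simp only [Set.mem_ofPred_eq, mem_iInter, Finset.mem_range, Nat.lt_succ_iff, mem_preimage,
          mem_singleton_iff]
      rw [this]
      exact Finset.measurableSet_biInter _
        (fun m _ => (measurable_pi_apply m) (MeasurableSet.singleton _))
    rw [Measure.map_apply hXm hcyl, Measure.map_apply ((measurable_wk vec 0).comp hstkm) hcyl]
    have hcyl2 := ((measurable_wk vec 0).comp hstkm) hcyl
    rw [Measure.prod_apply hcyl2]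
    by_cases hp : p 0 = 0
    · have h1 := path_law vec hvec hω hX hgood p (by rwa [hp]) (fun n e A hA => hstep n p e A hA) n
        univ MeasurableSet.univ
      have h2 : ((fun a n => X n a) ⁻¹' {x : ℕ → V | ∀ m ≤ n, x m = p m}) =
          {a | ω a ∈ univ ∧ ∀ m ≤ n, X m a = p m} := by
        ext a
        simp
      rw [h2, h1, preimage_univ, Measure.restrict_univ]
      apply lintegral_congr_ae
      filter_upwards [hgood] with a ha
      rw [← Lam_path vec hf hsel ha p n, hp]
      rfl
    · have h1 : μ ((fun a n => X n a) ⁻¹' {x : ℕ → V | ∀ m ≤ n, x m = p m}) = 0 := by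
        rw [measure_eq_zero_iff_ae_notMem]
        filter_upwards [h0] with a ha hcon
        apply hp
        rw [← ha]
        exact (hcon 0 (Nat.zero_le _)).symm
      rw [h1]
      symm
      rw [lintegral_eq_zero_iff (measurable_measure_prodMk_left hcyl2)]
      apply Eventually.of_forall
      intro a
      have h2 : (Prod.mk a ⁻¹' (((fun (ξ : V → ℕ → D) (n : ℕ) => wk vec ξ 0 n) ∘
          fun q : Ω × (V → ℕ → I) => stk f (ω q.1) q.2) ⁻¹'
          {x : ℕ → V | ∀ m ≤ n, x m = p m})) = ∅ := by
        rw [eq_empty_iff_forall_notMem]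
        intro U hU
        apply hp
        exact (hU 0 (Nat.zero_le _)).symm
      show (Lam V) _ = 0
      rw [h2, measure_empty]
  -- every arrow occurs infinitely often in every stack
  have hG : ∀ᵐ ξ ∂Q, ∀ z e, ∃ᶠ i in atTop, ξ z i = e := by
    have hGm : MeasurableSet {ξ : V → ℕ → D | ∀ z e, ∃ᶠ i in atTop, ξ z i = e} := by
      have : {ξ : V → ℕ → D | ∀ z e, ∃ᶠ i in atTop, ξ z i = e} =
          ⋂ z : V, ⋂ e : D, (fun ξ : V → ℕ → D => ξ z) ⁻¹' {x | ∃ᶠ i in atTop, x i = e} := by
        ext ξ
        simp only [Set.mem_ofPred_eq, mem_iInter, mem_preimage]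
      rw [this]
      exact MeasurableSet.iInter (fun z => MeasurableSet.iInter (fun e =>
        (measurable_pi_apply z) (measurableSet_freq e)))
    rw [hQ, ← hstk]
    rw [ae_map_iff hstkm.aemeasurable hGm]
    have h2 := hstkm hGm
    rw [ae_iff]
    have h3 : {q : Ω × (V → ℕ → I) | ¬ ∀ z e, ∃ᶠ i in atTop, stk f (ω q.1) q.2 z i = e} =
        ((fun q : Ω × (V → ℕ → I) => stk f (ω q.1) q.2) ⁻¹'
          {ξ : V → ℕ → D | ∀ z e, ∃ᶠ i in atTop, ξ z i = e})ᶜ := rfl
    rw [h3, Measure.prod_apply h2.compl, lintegral_eq_zero_iff (measurable_measure_prodMk_left h2.compl)]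
    filter_upwards [hell, hsum] with a ha1 ha2
    show (Lam V) _ = 0
    have h4 : ∀ᵐ U ∂(Lam V), ∀ z e, ∃ᶠ i in atTop, stk f (ω a) U z i = e := by
      rw [ae_all_iff]
      intro z
      rw [ae_all_iff]
      intro e
      exact ae_frequently hf hsel hκ ha1 ha2 z e
    rw [ae_iff] at h4
    exact h4
  -- the recurrence event
  set R : Set (V → ℕ → D) := {ξ | ∀ z, ∃ᶠ n in atTop, wk vec ξ 0 n = z} with hRdef
  have hRm : MeasurableSet R := (measurable_wk vec 0) measurableSet_rec
  have hshift : ∀ x (ξ : V → ℕ → D), ξ ∈ shift x ⁻¹' R ↔ ∀ z, ∃ᶠ n in atTop, wk vec ξ x n = z := by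
    intro x ξ
    rw [mem_preimage, hRdef, Set.mem_ofPred_eq]
    constructor
    · intro h z
      refine (h (z - x)).mono (fun n hn => ?_)
      rw [← (wk_shift vec ξ x n).1, hn, sub_add_cancel]
    · intro h z
      refine (h (z + x)).mono (fun n hn => ?_)
      rw [← (wk_shift vec ξ x n).1] at hn
      exact add_right_cancel hn
  have hinv : ∀ x, Q (R ∆ (shift x ⁻¹' R)) = 0 := by
    intro x
    rw [measure_eq_zero_iff_ae_notMem]
    filter_upwards [hG] with ξ hξ hcon
    rcases hcon with ⟨h1, h2⟩ | ⟨h1, h2⟩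
    · exact h2 ((hshift x ξ).mpr (rec_iff vec hgen hξ 0 x h1))
    · exact h2 (rec_iff vec hgen hξ x 0 ((hshift x ξ).mp h1))
  have hV : ∀ J : Finset V, ∃ x : V, ∀ i ∈ J, ∀ j ∈ J, i ≠ j + x := by
    intro J
    obtain ⟨x, hx⟩ := Infinite.exists_notMem_finset ((J ×ˢ J).image (fun q => q.1 - q.2))
    refine ⟨x, fun i hi j hj hij => hx ?_⟩
    rw [Finset.mem_image]
    refine ⟨(i, j), Finset.mem_product.mpr ⟨hi, hj⟩, ?_⟩
    rw [hij]
    simp
  have hwm := measurable_wk vec (0 : V)
  rcases zero_one (siteLaw μ f (fun a => ω a 0)) hV hRm hinv with h | h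
  · right
    have h1 : ∀ᵐ ξ ∂Q, ξ ∉ R := by
      rw [← measure_eq_zero_iff_ae_notMem]
      rw [measureReal_def, ENNReal.toReal_eq_zero_iff] at h
      rcases h with h | h
      · exact h
      · exact absurd h (measure_ne_top _ _)
    have h2 : ∀ᵐ ξ ∂Q, ∀ z, ∀ᶠ n in atTop, wk vec ξ 0 n ≠ z := by
      filter_upwards [h1, hG] with ξ hξ1 hξ2
      rcases rec_or_trans vec hgen hξ2 0 with h3 | h3
      · exact absurd h3 hξ1
      · exact h3
    have h3 : ∀ᵐ x ∂(Q.map (fun ξ n => wk vec ξ 0 n)), ∀ z, ∀ᶠ n in atTop, x n ≠ z := by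
      rw [ae_map_iff hwm.aemeasurable measurableSet_trans]
      exact h2
    rw [← hlaw] at h3
    exact ae_of_ae_map hXm.aemeasurable h3
  · left
    have h1 : ∀ᵐ ξ ∂Q, ξ ∈ R := by
      have h5 : Q R = 1 := by
        rw [measureReal_def] at h
        rwa [ENNReal.toReal_eq_one_iff] at h
      exact (mem_ae_iff_prob_eq_one hRm).mpr h5
    have h3 : ∀ᵐ x ∂(Q.map (fun ξ n => wk vec ξ 0 n)), ∀ z, ∃ᶠ n in atTop, x n = z := by
      rw [ae_map_iff hwm.aemeasurable measurableSet_rec]
      exact h1
    rw [← hlaw] at h3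
    exact ae_of_ae_map hXm.aemeasurable h3

end Pool.Agent.Helper73.ERW
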